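import Pool.Agent.Run7.h262.PO.Rep

/-!
# The rank over a Galois extension `L / M` of odd degree is even, if `E(M) = 0`
-/

set_option autoImplicit false

open scoped Classical

namespace Run7.h262.PO

variable {M L : Type} [Field M] [NumberField M] [Field L] [NumberField L] [Algebra M L]

/-- the group of points -/
abbrev Pt (E : WeierstrassCurve ℚ) (K : Type) [Field K] [Algebra ℚ K] : Type :=
  (E.baseChange K).toAffine.Point

/-- the action of the Galois group -/
noncomputable def act (M : Type) [Field M] [NumberField M] [Algebra M L] (E : WeierstrassCurve ℚ) :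
    (L ≃ₐ[M] L) →* Module.End ℤ (Pt E L) where
  toFun σ := (WeierstrassCurve.Affine.Point.map (W' := E) (S := M) (F := L) (K := L)
    σ.toAlgHom).toIntLinearMap
  map_one' := by
    apply LinearMap.ext
    intro P
    cases P <;> rfl
  map_mul' := fun σ τ => by
    apply LinearMap.ext
    intro P
    cases P <;> rfl

theorem fixed_zero [IsGalois M L] {E : WeierstrassCurve ℚ} (h0 : Subsingleton (Pt E M))
    (P : Pt E L) (hP : ∀ σ, act M E σ P = P) : P = 0 := by
  cases P with
  | zero => rfl
  | some x y h =>
    exfalso
    have h1 : ∀ σ : L ≃ₐ[M] L, σ x = x ∧ σ y = y := by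
      intro σ
      have h2 := hP σ
      have h3 : (WeierstrassCurve.Affine.Point.some (σ x) (σ y)
          ((E.toAffine.baseChange_nonsingular (σ.toAlgHom : L →ₐ[M] L).injective ..).mpr h) : Pt E L) =
          WeierstrassCurve.Affine.Point.some x y h := h2
      simpa using h3
    obtain ⟨x0, hx⟩ := (IsGalois.mem_range_algebraMap_iff_fixed (F := M) (E := L) x).2
      fun σ => (h1 σ).1
    obtain ⟨y0, hy⟩ := (IsGalois.mem_range_algebraMap_iff_fixed (F := M) (E := L) y).2
      fun σ => (h1 σ).2
    subst hx
    subst hy
    have h4 : (E.baseChange M).toAffine.Nonsingular x0 y0 :=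
      (E.toAffine.baseChange_nonsingular (Algebra.ofId M L).injective ..).mp h
    have h5 : (WeierstrassCurve.Affine.Point.some x0 y0 h4 : Pt E M) = 0 := h0.elim _ _
    exact WeierstrassCurve.Affine.Point.some_ne_zero h4 h5

/-- The rank is even. -/
theorem rank_even [IsGalois M L] (hodd : Odd (Module.finrank M L)) {E : WeierstrassCurve ℚ}
    (h0 : Subsingleton (Pt E M)) (hfg : Module.Finite ℤ (Pt E L)) :
    Even (Module.finrank ℤ (Pt E L)) := by
  refine even_finrank (G := L ≃ₐ[M] L) ?_ (act M E) (fixed_zero h0)
  rw [IsGalois.card_aut_eq_finrank M L]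
  exact hodd

end Run7.h262.PO
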