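import Pool.Agent.Run7.h262.PO.Places

/-!
# Root numbers over an extension `L / M` of odd degree, where `L` is Galois over `ℚ`
-/

set_option autoImplicit false

open NumberField IsDedekindDomain Pool.Agent.N922.PX

namespace Run7.h262.PO

variable {M L : Type} [Field M] [NumberField M] [Field L] [NumberField L] [Algebra M L]

/-- change of variables in the extension -/
theorem base_smul (W : WeierstrassCurve M) (C : WeierstrassCurve.VariableChange M) :
    (C.map (algebraMap M L)) • (W.map (algebraMap M L)) = (C • W).map (algebraMap M L) :=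
  WeierstrassCurve.map_variableChange W C (algebraMap M L)

theorem integral_up {V : HeightOneSpectrum (𝓞 L)} {W : WeierstrassCurve M}
    (h : IntegralAt (bel M V) W) : IntegralAt V (W.map (algebraMap M L)) :=
  ⟨(val_le V _).2 h.a₁, (val_le V _).2 h.a₂, (val_le V _).2 h.a₃, (val_le V _).2 h.a₄,
    (val_le V _).2 h.a₆⟩

theorem good_up {V : HeightOneSpectrum (𝓞 L)} {W : WeierstrassCurve M}
    (h : GoodReduction (bel M V) W) : GoodReduction V (W.map (algebraMap M L)) := by
  obtain ⟨C, h1, h2⟩ := h
  refine ⟨C.map (algebraMap M L), ?_, ?_⟩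
  · rw [base_smul]
    exact integral_up h1
  · rw [base_smul, WeierstrassCurve.map_Δ]
    exact (val_eq V _).2 h2

theorem split_up {V : HeightOneSpectrum (𝓞 L)} {W : WeierstrassCurve M}
    (h : SplitMultiplicative (bel M V) W) : SplitMultiplicative V (W.map (algebraMap M L)) := by
  obtain ⟨C, h1, h3, h4, h6, hb, α, hα, h7⟩ := h
  refine ⟨C.map (algebraMap M L), ?_, ?_, ?_, ?_, ?_, algebraMap M L α, (val_le V _).2 hα, ?_⟩
  · rw [base_smul]
    exact integral_up h1
  · rw [base_smul]
    exact (val_lt V _).2 h3
  · rw [base_smul]
    exact (val_lt V _).2 h4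
  · rw [base_smul]
    exact (val_lt V _).2 h6
  · rw [base_smul, WeierstrassCurve.map_b₂]
    exact (val_eq V _).2 hb
  · rw [base_smul]
    have := (val_lt V _).2 h7
    simpa using this

theorem base_base (E : WeierstrassCurve ℚ) :
    (E.baseChange M).map (algebraMap M L) = E.baseChange L := by
  unfold WeierstrassCurve.baseChange
  rw [WeierstrassCurve.map_map]
  congr 1
  exact (IsScalarTower.algebraMap_eq ℚ M L).symm

variable [IsGalois ℚ L]

/-- The local root numbers over `M` from the local root numbers over `L`. -/
theorem exists_root (hodd : Odd (Module.finrank M L)) {E : WeierstrassCurve ℚ}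
    {w : HeightOneSpectrum (𝓞 L) → ℤ} (hw : LocalRootNumbers L E w)
    (hfin : {V | w V ≠ 1}.Finite) :
    ∃ u : HeightOneSpectrum (𝓞 M) → ℤ, LocalRootNumbers M E u ∧
      rootNumber L w = rootNumber M u := by
  classical
  have hML : IsGalois M L := IsGalois.tower_top_of_isGalois ℚ M L
  let up : HeightOneSpectrum (𝓞 M) → HeightOneSpectrum (𝓞 L) := fun v =>
    (exists_above (L := L) v).choose
  have hup : ∀ v, bel M (up v) = v := fun v => (exists_above (L := L) v).choose_spec
  let u : HeightOneSpectrum (𝓞 M) → ℤ := fun v => w (up v)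
  have hu : ∀ V, w V = u (bel M V) := by
    intro V
    obtain ⟨σ, hσ⟩ := conj_above (M := M) (V := V) (V' := up (bel M V)) (by rw [hup])
    exact (hw.conj (σ.restrictScalars ℚ) V (up (bel M V)) hσ).symm
  have hU : LocalRootNumbers M E u := by
    refine ⟨fun v => hw.sign _, fun v hv => ?_, fun v hv => ?_, fun σ v v' h => ?_⟩
    · refine hw.good _ ?_
      have h1 : GoodReduction (bel M (up v)) (E.baseChange M) := by rwa [hup]
      have h2 := good_up h1
      rwa [base_base] at h2
    · refine hw.split _ ?_
      have h1 : SplitMultiplicative (bel M (up v)) (E.baseChange M) := by rwa [hup]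
      have h2 := split_up h1
      rwa [base_base] at h2
    · let τ : L ≃ₐ[ℚ] L := σ.liftNormal L
      have hτ : ∀ x : M, τ (algebraMap M L x) = algebraMap M L (σ x) := fun x =>
        AlgEquiv.liftNormal_commutes σ L x
      obtain ⟨V', hV'⟩ := exists_conj τ (up v)
      have h1 : bel M V' = v' := by
        apply ext_val
        intro x
        rw [← val_lt, hV', hτ, val_lt, hup, h]
      have h2 := hw.conj τ (up v) V' hV'
      rw [hu V', h1] at h2
      exact h2
  refine ⟨u, hU, ?_⟩
  unfold rootNumber
  congr 1
  · have h1 := inf_mod_two (M := M) (L := L) hodd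
    rw [neg_one_pow_eq_pow_mod_two, h1, ← neg_one_pow_eq_pow_mod_two]
  · have hS : (Function.mulSupport w).Finite := hfin
    have hTS : Function.mulSupport u ⊆ (bel M) '' (Function.mulSupport w) := by
      intro v hv
      refine ⟨up v, hv, hup v⟩
    have hT : (Function.mulSupport u).Finite := (hS.image _).subset hTS
    rw [finprod_eq_prod_of_mulSupport_toFinset_subset w hS (Finset.Subset.refl _),
      finprod_eq_prod_of_mulSupport_toFinset_subset u hT (Finset.Subset.refl _)]
    have hmap : ∀ V ∈ hS.toFinset, bel M V ∈ hT.toFinset := by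
      intro V hV
      rw [Set.Finite.mem_toFinset] at hV ⊢
      show u (bel M V) ≠ 1
      rw [← hu]
      exact hV
    rw [← Finset.prod_fiberwise_of_maps_to hmap]
    refine Finset.prod_congr rfl fun v hv => ?_
    have h1 : ∀ V ∈ hS.toFinset.filter (fun V => bel M V = v), w V = u v := by
      intro V hV
      rw [hu V, (Finset.mem_filter.1 hV).2]
    rw [Finset.prod_congr rfl h1, Finset.prod_const]
    have h2 : (hS.toFinset.filter (fun V => bel M V = v)).card =
        {V : HeightOneSpectrum (𝓞 L) | bel M V = v}.ncard := by
      rw [← Set.ncard_coe_finset]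
      congr 1
      ext V
      simp only [Finset.coe_filter, Set.Finite.mem_toFinset, Set.mem_ofPred_eq,
        Function.mem_mulSupport]
      constructor
      · exact fun h => h.2
      · intro h
        refine ⟨?_, h⟩
        rw [hu V, h]
        rw [Set.Finite.mem_toFinset] at hv
        exact hv
    rw [h2]
    have hv1 : u v ≠ 1 := by
      rw [Set.Finite.mem_toFinset] at hv
      exact hv
    have hv2 : u v = -1 := (hU.sign v).resolve_left hv1
    rw [hv2]
    exact (fib_odd hodd v).neg_one_pow

end Run7.h262.PO
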