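import Mathlib

/-!
# Groups of odd order: orbits, and lattices without invariants have even rank
-/

set_option autoImplicit false

open Matrix

namespace Run7.h262.PO

/-- the trace of the inverse of an element of finite order is the trace -/
theorem trace_inv {G n : Type} [Group G] [Fintype G] [Fintype n] [DecidableEq n]
    (R : G →* Matrix n n ℝ) (g : G) : (R g⁻¹).trace = (R g).trace := by
  classical
  set S : Matrix n n ℝ := ∑ h, (R h)ᵀ * R h with hS
  have hpos : S.PosDef := by
    have h1 : ∀ h, ((R h)ᵀ * R h).PosDef := by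
      intro h
      have := Matrix.PosDef.conjTranspose_mul_self (R h) (by
        intro x y hxy
        have hu : IsUnit (R h) := (Group.isUnit h).map R
        exact (Matrix.mulVec_injective_iff_isUnit.2 hu) hxy)
      simpa [Matrix.conjTranspose_eq_transpose_of_trivial] using this
    have h2 : ∀ h, ((R h)ᵀ * R h).PosSemidef := fun h => (h1 h).posSemidef
    have e : S = (R 1)ᵀ * R 1 + ∑ h ∈ Finset.univ.erase (1 : G), (R h)ᵀ * R h := by
      rw [hS, ← Finset.add_sum_erase _ _ (Finset.mem_univ (1 : G))]
    rw [e]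
    refine (h1 1).add_posSemidef ?_
    exact Matrix.posSemidef_sum _ fun h _ => h2 h
  have hinv : ∀ g, (R g)ᵀ * S * R g = S := by
    intro g
    rw [hS, Finset.mul_sum, Finset.sum_mul]
    have e : ∀ h, (R g)ᵀ * ((R h)ᵀ * R h) * R g = (R (h * g))ᵀ * R (h * g) := by
      intro h
      rw [map_mul, Matrix.transpose_mul]
      simp only [Matrix.mul_assoc]
    simp only [e]
    exact Fintype.sum_bijective (fun h => h * g) (Group.mulRight_bijective g) _ _ fun h => rfl
  have hu : IsUnit S.det := by
    rw [isUnit_iff_ne_zero]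
    exact hpos.det_pos.ne'
  have h1 : (R g) * (R g⁻¹) = 1 := by rw [← map_mul, mul_inv_cancel, map_one]
  have h2 : (R g)ᵀ * S = S * R g⁻¹ := by
    calc (R g)ᵀ * S = (R g)ᵀ * S * ((R g) * (R g⁻¹)) := by rw [h1, Matrix.mul_one]
      _ = ((R g)ᵀ * S * R g) * R g⁻¹ := by simp only [Matrix.mul_assoc]
      _ = S * R g⁻¹ := by rw [hinv]
  calc (R g⁻¹).trace = (S⁻¹ * (S * R g⁻¹)).trace := by
        rw [← Matrix.mul_assoc, Matrix.nonsing_inv_mul _ hu, Matrix.one_mul]
    _ = (S⁻¹ * ((R g)ᵀ * S)).trace := by rw [h2]
    _ = (((R g)ᵀ * S) * S⁻¹).trace := Matrix.trace_mul_comm _ _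
    _ = ((R g)ᵀ).trace := by
        rw [Matrix.mul_assoc, Matrix.mul_nonsing_inv _ hu, Matrix.mul_one]
    _ = (R g).trace := Matrix.trace_transpose _

/-- an integral representation of a group of odd order with `∑ g = 0` has even degree -/
theorem even_of_sum {G n : Type} [Group G] [Fintype G] [Fintype n] [DecidableEq n]
    (hG : Odd (Fintype.card G)) (R : G →* Matrix n n ℤ) (h0 : ∑ g, R g = 0) :
    Even (Fintype.card n) := by
  classical
  have htr : ∀ g, (R g⁻¹).trace = (R g).trace := by
    intro g
    let Rr : G →* Matrix n n ℝ :=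
      ((Int.castRingHom ℝ).mapMatrix : Matrix n n ℤ →+* Matrix n n ℝ).toMonoidHom.comp R
    have h := trace_inv Rr g
    have e : ∀ g, (Rr g).trace = (((R g).trace : ℤ) : ℝ) := by
      intro g
      simp [Rr, Matrix.trace, Matrix.map_apply]
    rw [e, e] at h
    exact_mod_cast h
  have h1 : ∑ g, (R g).trace = 0 := by
    rw [← Matrix.trace_sum, h0, Matrix.trace_zero]
  have h2 : ∑ g, (((R g).trace : ℤ) : ZMod 2) = 0 := by
    rw [← Int.cast_sum, h1, Int.cast_zero]
  rw [← Finset.add_sum_erase _ _ (Finset.mem_univ (1 : G))] at h2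
  have h3 : ∑ g ∈ Finset.univ.erase (1 : G), (((R g).trace : ℤ) : ZMod 2) = 0 := by
    refine Finset.sum_involution (fun g _ => g⁻¹) ?_ ?_ ?_ ?_
    · intro g _
      rw [htr, ← two_mul]
      have : (2 : ZMod 2) = 0 := by decide
      rw [this, zero_mul]
    · intro g hg _ he
      have hg1 : g ≠ 1 := Finset.ne_of_mem_erase hg
      have : g ^ 2 = 1 := by
        rw [pow_two]
        nth_rewrite 1 [← he]
        exact inv_mul_cancel g
      have ho := orderOf_dvd_of_pow_eq_one this
      have hc : orderOf g ∣ Fintype.card G := orderOf_dvd_card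
      have hcop : Nat.Coprime 2 (Fintype.card G) := (Nat.coprime_two_left).2 hG
      have : orderOf g ∣ 1 := by
        have := Nat.dvd_gcd ho hc
        rwa [hcop.gcd_eq_one] at this
      exact hg1 (orderOf_eq_one_iff.1 (Nat.dvd_one.1 this))
    · intro g hg
      refine Finset.mem_erase.2 ⟨?_, Finset.mem_univ _⟩
      simpa using Finset.ne_of_mem_erase hg
    · intro g _
      simp
  rw [h3, add_zero, map_one, Matrix.trace_one] at h2
  have h4 : ((Fintype.card n : ℕ) : ZMod 2) = 0 := by exact_mod_cast h2
  exact (ZMod.natCast_eq_zero_iff_even).1 h4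

/-- A finitely generated abelian group with an action of a group of odd order without invariants has
even rank. -/
theorem even_finrank {G A : Type} [Group G] [Finite G] (hG : Odd (Nat.card G)) [AddCommGroup A]
    [Module.Finite ℤ A] (T : G →* Module.End ℤ A) (h0 : ∀ x, (∀ g, T g x = x) → x = 0) :
    Even (Module.finrank ℤ A) := by
  classical
  have := Fintype.ofFinite G
  rw [Nat.card_eq_fintype_card] at hG
  have hsum : ∀ x, ∑ g, T g x = 0 := by
    intro x
    apply h0
    intro g
    rw [map_sum]
    have e : ∀ h, T g (T h x) = T (g * h) x := fun h => by rw [map_mul]; rfl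
    simp only [e]
    exact Fintype.sum_bijective (fun h => g * h) (Group.mulLeft_bijective g) _ _ fun h => rfl
  let N : Submodule ℤ A := Submodule.torsion ℤ A
  have hN : ∀ g, N ≤ N.comap (T g) := by
    intro g x hx
    obtain ⟨a, ha⟩ := Submodule.mem_torsion_iff x |>.1 hx
    refine (Submodule.mem_torsion_iff _).2 ⟨a, ?_⟩
    have h1 : (a : ℤ) • x = 0 := ha
    show (a : ℤ) • T g x = 0
    rw [← map_smul, h1, map_zero]
  let ρ : G →* Module.End ℤ (A ⧸ N) :=
    { toFun := fun g => N.mapQ N (T g) (hN g)
      map_one' := by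
        ext x
        simp
      map_mul' := fun g h => by
        ext x
        simp }
  have : Module.Free ℤ (A ⧸ N) := inferInstance
  let b := Module.Free.chooseBasis ℤ (A ⧸ N)
  let R : G →* Matrix _ _ ℤ :=
    (LinearMap.toMatrixAlgEquiv b).toAlgHom.toRingHom.toMonoidHom.comp ρ
  have hR : ∑ g, R g = 0 := by
    have e : ∀ g, R g = LinearMap.toMatrixAlgEquiv b (ρ g) := fun g => rfl
    simp only [e]
    rw [← map_sum]
    have : ∑ g, ρ g = 0 := by
      apply LinearMap.ext
      intro y
      obtain ⟨x, rfl⟩ := N.mkQ_surjective y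
      rw [LinearMap.sum_apply]
      have e2 : ∀ g, ρ g (N.mkQ x) = N.mkQ (T g x) := fun g => rfl
      simp only [e2]
      rw [← map_sum, hsum, map_zero]
      rfl
    rw [this, map_zero]
  have h := even_of_sum hG R hR
  have e : Module.finrank ℤ A = Module.finrank ℤ (A ⧸ N) := by
    have h1 := Submodule.finrank_quotient_add_finrank N
    have h2 : Module.finrank ℤ N = 0 := by
      apply Module.finrank_eq_zero_of_rank_eq_zero
      exact rank_eq_zero_iff.2 fun x => by
        obtain ⟨a, ha⟩ := Submodule.mem_torsion_iff (x : A) |>.1 x.2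
        refine ⟨a, nonZeroDivisors.ne_zero a.2, ?_⟩
        apply Subtype.ext
        exact ha
    omega
  rw [e, Module.finrank_eq_card_chooseBasisIndex]
  exact h

/-- orbits of a group of odd order -/
theorem card_orbits {G X : Type} [Group G] [Finite G] (hG : Odd (Nat.card G)) [MulAction G X]
    (x : X) : Odd (Nat.card (MulAction.orbit G x)) := by
  have h : Nat.card (MulAction.orbit G x) ∣ Nat.card G := by
    rw [Nat.card_congr (MulAction.orbitEquivQuotientStabilizer G x)]
    exact Subgroup.card_quotient_dvd_card _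
  exact hG.of_dvd_nat h

end Run7.h262.PO
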