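import Pool.Agent.N415.PQ.SigLie
import Pool.Agent.N922.PX.Stm
import Pool.Agent.Run7.h262.PO.Rep

/-!
# Places of an extension `L / M` of odd degree, where `L` is Galois over `ℚ`
-/

set_option autoImplicit false

open NumberField IsDedekindDomain

namespace Run7.h262.PO

section orbits

variable {G X : Type} [Group G] [Finite G] [MulAction G X] [Finite X]

theorem card_mod_two (hG : Odd (Nat.card G)) :
    Nat.card X ≡ Nat.card (Quotient (MulAction.orbitRel G X)) [MOD 2] := by
  classical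
  have := Fintype.ofFinite X
  have := Fintype.ofFinite (Quotient (MulAction.orbitRel G X))
  rw [Nat.card_congr (MulAction.selfEquivSigmaOrbits G X), Nat.card_sigma]
  rw [Nat.card_eq_fintype_card, ← Finset.card_univ]
  have h : ∀ ω : Quotient (MulAction.orbitRel G X),
      Nat.card (MulAction.orbit G ω.out) % 2 = 1 := fun ω =>
    Nat.odd_iff.1 (card_orbits hG _)
  unfold Nat.ModEq
  rw [Finset.sum_nat_mod]
  simp only [h]
  rw [Finset.sum_const, smul_eq_mul, mul_one]

end orbits

variable {M L : Type} [Field M] [NumberField M] [Field L] [NumberField L] [Algebra M L]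

/-- The numbers of the infinite places have the same parity. -/
theorem inf_mod_two [IsGalois M L] (hodd : Odd (Module.finrank M L)) :
    Nat.card (InfinitePlace L) ≡ Nat.card (InfinitePlace M) [MOD 2] := by
  have h1 : Nat.card (L ≃ₐ[M] L) = Module.finrank M L := IsGalois.card_aut_eq_finrank M L
  have h2 := card_mod_two (G := L ≃ₐ[M] L) (X := InfinitePlace L) (by rw [h1]; exact hodd)
  rw [Nat.card_congr (InfinitePlace.orbitRelEquiv (k := M) (K := L))] at h2
  exact h2

/-- The prime of `M` below a prime of `L`. -/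
noncomputable def bel (M : Type) [Field M] [NumberField M] [Algebra M L]
    (V : HeightOneSpectrum (𝓞 L)) : HeightOneSpectrum (𝓞 M) where
  asIdeal := V.asIdeal.under (𝓞 M)
  isPrime := by
    have := V.isPrime
    exact Ideal.IsPrime.under (𝓞 M) V.asIdeal
  ne_bot := by
    have := V.isPrime
    exact Ideal.IsIntegral.comap_ne_bot (𝓞 M) V.ne_bot

instance lies_bel (V : HeightOneSpectrum (𝓞 L)) : V.asIdeal.LiesOver (bel M V).asIdeal :=
  ⟨rfl⟩

theorem bel_eq {V : HeightOneSpectrum (𝓞 L)} {v : HeightOneSpectrum (𝓞 M)} :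
    bel M V = v ↔ V.asIdeal.LiesOver v.asIdeal := by
  constructor
  · rintro rfl
    exact lies_bel V
  · intro h
    exact HeightOneSpectrum.ext h.over.symm

theorem exists_above (v : HeightOneSpectrum (𝓞 M)) :
    ∃ V : HeightOneSpectrum (𝓞 L), bel M V = v := by
  have := v.isPrime
  obtain ⟨⟨Q, h1, h2⟩⟩ := (inferInstance : Nonempty (v.asIdeal.primesOver (𝓞 L)))
  refine ⟨⟨Q, h1, ?_⟩, ?_⟩
  · rintro rfl
    apply v.ne_bot
    have := h2.over
    rw [this]
    exact Ideal.comap_bot_of_injective _ (FaithfulSMul.algebraMap_injective _ _)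
  · rw [bel_eq]
    exact h2

section val

variable (V : HeightOneSpectrum (𝓞 L)) (x : M)

theorem val_pow : ∃ e : ℕ, e ≠ 0 ∧
    (bel M V).valuation M x ^ e = V.valuation L (algebraMap M L x) :=
  ⟨_, Ideal.IsDedekindDomain.ramificationIdx'_ne_zero_of_liesOver V.asIdeal (bel M V).ne_bot,
    HeightOneSpectrum.valuation_liesOver L (bel M V) V x⟩

theorem val_le : V.valuation L (algebraMap M L x) ≤ 1 ↔ (bel M V).valuation M x ≤ 1 := by
  obtain ⟨e, h1, h2⟩ := val_pow V x
  rw [← h2]
  exact pow_le_one_iff h1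

theorem val_lt : V.valuation L (algebraMap M L x) < 1 ↔ (bel M V).valuation M x < 1 := by
  obtain ⟨e, h1, h2⟩ := val_pow V x
  rw [← h2]
  exact pow_lt_one_iff h1

theorem val_eq : V.valuation L (algebraMap M L x) = 1 ↔ (bel M V).valuation M x = 1 := by
  obtain ⟨e, h1, h2⟩ := val_pow V x
  rw [← h2, pow_eq_one_iff, or_iff_left h1]

end val

theorem ext_val {v v' : HeightOneSpectrum (𝓞 M)}
    (h : ∀ x : M, v.valuation M x < 1 ↔ v'.valuation M x < 1) : v = v' := by
  apply HeightOneSpectrum.ext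
  ext x
  rw [← HeightOneSpectrum.valuation_lt_one_iff_mem (K := M), h,
    HeightOneSpectrum.valuation_lt_one_iff_mem (K := M)]

/-- an automorphism carries primes to primes -/
theorem exists_conj (σ : L ≃ₐ[ℚ] L) (V : HeightOneSpectrum (𝓞 L)) :
    ∃ V' : HeightOneSpectrum (𝓞 L), ∀ x, V'.valuation L x = V.valuation L (σ x) := by
  obtain ⟨w, hw, -⟩ := Pool.Agent.N415.PQ.sig L (𝓞 L) σ.toRingEquiv V
  exact ⟨w, hw⟩

/-- the primes over a prime of `M` are conjugate over `M` -/
theorem conj_above [IsGalois M L] {V V' : HeightOneSpectrum (𝓞 L)} (h : bel M V = bel M V') :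
    ∃ σ : L ≃ₐ[M] L, ∀ x, V'.valuation L x = V.valuation L (σ x) := by
  have := V.isPrime
  have := V'.isPrime
  have h1 : V.asIdeal.LiesOver (bel M V).asIdeal := lies_bel V
  have h2 : V'.asIdeal.LiesOver (bel M V).asIdeal := by
    rw [h]
    exact lies_bel V'
  obtain ⟨σ, hσ⟩ := Ideal.exists_smul_eq_of_isGaloisGroup (bel M V).asIdeal
    V'.asIdeal V.asIdeal (L ≃ₐ[M] L)
  refine ⟨σ, ?_⟩
  obtain ⟨w, hw, -⟩ := Pool.Agent.N415.PQ.sig L (𝓞 L) σ.toRingEquiv V
  have e : w = V' := by
    apply HeightOneSpectrum.ext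
    ext x
    rw [← HeightOneSpectrum.valuation_lt_one_iff_mem (K := L) w x, hw]
    have e2 : σ.toRingEquiv ((x : 𝓞 L) : L) = ((σ • x : 𝓞 L) : L) := rfl
    rw [e2, HeightOneSpectrum.valuation_lt_one_iff_mem, ← hσ,
      Ideal.smul_mem_pointwise_smul_iff]
  rw [← e]
  exact hw

/-- the number of primes over a prime of `M` is odd -/
theorem fib_odd [IsGalois M L] (hodd : Odd (Module.finrank M L)) (v : HeightOneSpectrum (𝓞 M)) :
    Odd ({V : HeightOneSpectrum (𝓞 L) | bel M V = v}.ncard) := by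
  have := v.isPrime
  have h1 : Nat.card (L ≃ₐ[M] L) = Module.finrank M L := IsGalois.card_aut_eq_finrank M L
  have h2 := Ideal.ncard_primesOver_mul_ramificationIdxIn_mul_inertiaDegIn v.asIdeal (𝓞 L)
    (L ≃ₐ[M] L)
  have h3 : {V : HeightOneSpectrum (𝓞 L) | bel M V = v}.ncard =
      (v.asIdeal.primesOver (𝓞 L)).ncard := by
    refine Set.ncard_congr (fun V _ => V.asIdeal) ?_ ?_ ?_
    · intro V hV
      exact ⟨V.isPrime, bel_eq.1 hV⟩
    · intro V V' _ _ h
      exact HeightOneSpectrum.ext h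
    · rintro Q ⟨hQ, hQ'⟩
      refine ⟨⟨Q, hQ, ?_⟩, ?_, rfl⟩
      · rintro rfl
        apply v.ne_bot
        have := hQ'.over
        rw [this]
        exact Ideal.comap_bot_of_injective _ (FaithfulSMul.algebraMap_injective _ _)
      · exact bel_eq.2 hQ'
  rw [h3]
  refine hodd.of_dvd_nat ?_
  rw [← h1, ← h2]
  exact Dvd.intro _ rfl

end Run7.h262.PO
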